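import Mathlib
import Pool.Agent.H33.G.R_seed8.H319R2.LlnFinal

set_option autoImplicit false

/-!
(Copy, for use as a lemma, of helper319's theorem MP_a1568a_nt.AlmostAllDescent.)
Almost all trajectories of the 3x+1 map descend to a power of the logarithm in the expected time and
along the expected profile.
-/

namespace Pool.Agent.H363R2.Desc

open Filter

/-- The `3x+1` function. -/
def T (n : ℕ) : ℕ := if n % 2 = 0 then n / 2 else (3 * n + 1) / 2

theorem T_eq : T = Pool.Agent.Helper894.Collatz.T := rfl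

/-- For all `ε, A > 0` there is `B` such that for all large `x`, all positive integers `n ≤ x` with at
most `x / (log x)^A` exceptions have the following property: there is `m` with
`|m - (2 / log (4/3)) log x| ≤ ε log x` and `T^m n ≤ (log x)^B`, and
`|log T^j n - (log x - (j/2) log (4/3))| ≤ ε log x` and `T^j n ≤ x (log x)^(A+5)` for all `j ≤ m`. -/
theorem result (ε A : ℝ) (hε : 0 < ε) (hA : 0 < A) : ∃ B : ℝ, ∀ᶠ x : ℝ in atTop,
    (Set.ncard {n : ℕ | 1 ≤ n ∧ (n : ℝ) ≤ x ∧
      ¬ ∃ m : ℕ, ((T^[m] n : ℕ) : ℝ) ≤ Real.log x ^ B ∧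
        |(m : ℝ) - 2 / Real.log (4 / 3) * Real.log x| ≤ ε * Real.log x ∧
        ∀ j ≤ m, |Real.log (T^[j] n : ℕ) - (Real.log x - j / 2 * Real.log (4 / 3))| ≤
          ε * Real.log x ∧ ((T^[j] n : ℕ) : ℝ) ≤ x * Real.log x ^ (A + 5)} : ℝ) ≤
      x / Real.log x ^ A := by
  classical
  have hμ0 : 0 < Real.log (4 / 3) := Real.log_pos (by norm_num)
  set μ : ℝ := Real.log (4 / 3) / 2 with hμ
  have hμpos : 0 < μ := by positivity
  have hμe : Pool.Agent.H319R2.Lln.mu = μ := rfl
  set ε1 : ℝ := min (ε / 3) (ε * μ / 3) with hε1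
  have hε10 : 0 < ε1 := lt_min (by linarith) (by positivity)
  have hε1a : 3 * ε1 ≤ ε := by have := min_le_left (ε / 3) (ε * μ / 3); linarith
  have hε1b : 3 * ε1 ≤ ε * μ := by have := min_le_right (ε / 3) (ε * μ / 3); linarith
  obtain ⟨B, hB0, hB⟩ := Pool.Agent.H319R2.Lln.lln ε1 (A + 1) hε10 (by linarith)
  refine ⟨B, ?_⟩
  have hlo : (fun x : ℝ => Real.log (Real.log x)) =o[atTop] fun x => Real.log x :=
    Real.isLittleO_log_id_atTop.comp_tendsto Real.tendsto_log_atTop
  have e1 : ∀ᶠ x : ℝ in atTop, (B + A + 1) * Real.log (Real.log x) ≤ ε1 * Real.log x := by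
    have hpos : 0 < ε1 / (B + A + 1) := by positivity
    filter_upwards [hlo.bound hpos, eventually_ge_atTop 1] with x hx hx1
    rw [Real.norm_eq_abs, Real.norm_eq_abs, abs_of_nonneg (Real.log_nonneg hx1)] at hx
    have h1 := (le_abs_self _).trans hx
    have h2 : 0 < B + A + 1 := by linarith
    calc (B + A + 1) * Real.log (Real.log x) ≤ (B + A + 1) * (ε1 / (B + A + 1) * Real.log x) :=
          mul_le_mul_of_nonneg_left h1 h2.le
      _ = ε1 * Real.log x := by field_simp
  filter_upwards [hB, e1, Real.tendsto_log_atTop.eventually_ge_atTop 3,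
    eventually_gt_atTop 1] with x hx hx1 hx3 hx0
  set u := Real.log x with hu
  have hx00 : 0 < x := by linarith
  have hu0 : 0 < u := by linarith
  have hlu : 0 ≤ Real.log u := Real.log_nonneg (by linarith)
  set E := {n : ℕ | 1 ≤ n ∧ (n : ℝ) ≤ x ∧
      ¬ ∃ m : ℕ, ((T^[m] n : ℕ) : ℝ) ≤ u ^ B ∧
        |(m : ℝ) - 2 / Real.log (4 / 3) * u| ≤ ε * u ∧
        ∀ j ≤ m, |Real.log (T^[j] n : ℕ) - (u - j / 2 * Real.log (4 / 3))| ≤ ε * u ∧
          ((T^[j] n : ℕ) : ℝ) ≤ x * u ^ (A + 5)} with hE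
  have hfin : E.Finite := by
    apply (Set.finite_Iic ⌊x⌋₊).subset
    intro n hn
    exact Nat.le_floor hn.2.1
  rw [Set.ncard_eq_toFinset_card E hfin]
  set small : Finset ℕ := Finset.Ioc 0 ⌊x / u ^ (A + 1)⌋₊ with hsmall
  have hcards : (small.card : ℝ) ≤ x / u ^ (A + 1) := by
    rw [hsmall, Nat.card_Ioc, Nat.sub_zero]
    exact Nat.floor_le (by positivity)
  set S := hfin.toFinset \ small with hS
  have hV : x ≤ x * u ^ (A + 5) := by
    have : (1 : ℝ) ≤ u ^ (A + 5) := Real.one_le_rpow (by linarith) (by linarith)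
    nlinarith
  have hcard := hx (x * u ^ (A + 5)) hV S (by
    intro n hn
    rw [hS, Finset.mem_sdiff, Set.Finite.mem_toFinset] at hn
    obtain ⟨⟨h1, h2, h3⟩, h4⟩ := hn
    refine ⟨h1, h2, fun hP => h3 ?_⟩
    have hn0 : (0 : ℝ) < n := by exact_mod_cast h1
    have hnbig : x / u ^ (A + 1) < n := by
      by_contra h8
      apply h4
      rw [hsmall, Finset.mem_Ioc]
      exact ⟨h1, Nat.le_floor (not_lt.1 h8)⟩
    have hlogn1 : Real.log n ≤ u := Real.log_le_log hn0 h2
    have hlogn0 : 0 ≤ Real.log (n : ℝ) := Real.log_natCast_nonneg n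
    have hlogn2 : u - ε1 * u ≤ Real.log n := by
      have h5 := Real.log_le_log (by positivity) hnbig.le
      rw [Real.log_div hx00.ne' (by positivity), Real.log_rpow hu0, ← hu] at h5
      have h6 : (A + 1) * Real.log u ≤ (B + A + 1) * Real.log u :=
        mul_le_mul_of_nonneg_right (by linarith) hlu
      linarith
    obtain ⟨m0, p1, p2⟩ := hP
    have hprof : ∀ j ≤ m0, |Real.log (T^[j] n : ℕ) - (u - j / 2 * Real.log (4 / 3))| ≤ 2 * ε1 * u := by
      intro j hj
      have h7 := (p2 j hj).1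
      rw [hμe] at h7
      have e : Real.log (T^[j] n : ℕ) - (u - j / 2 * Real.log (4 / 3)) =
          (Real.log (Pool.Agent.Helper894.Collatz.T^[j] n : ℕ) - Real.log n + μ * j) +
            (Real.log n - u) := by
        rw [hμ, T_eq]; ring
      rw [e]
      refine (abs_add_le _ _).trans ?_
      have h8 : |Real.log (n : ℝ) - u| ≤ ε1 * u := by
        rw [abs_le]; constructor <;> nlinarith
      have h9 : ε1 * Real.log n ≤ ε1 * u := mul_le_mul_of_nonneg_left hlogn1 hε10.le
      linarith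
    refine ⟨m0, p1, ?_, fun j hj => ⟨(hprof j hj).trans ?_, (p2 j hj).2⟩⟩
    · have h7 := abs_le.1 (hprof m0 le_rfl)
      have hT : 0 < T^[m0] n := by
        rw [T_eq]; exact Pool.Agent.H377R2.iter_pos h1 m0
      have h8 : 0 ≤ Real.log (T^[m0] n : ℕ) := Real.log_natCast_nonneg _
      have h9 : Real.log (T^[m0] n : ℕ) ≤ ε1 * u := by
        have h10 : ((T^[m0] n : ℕ) : ℝ) ≤ u ^ B := p1
        have h11 := Real.log_le_log (by exact_mod_cast hT) h10
        rw [Real.log_rpow hu0] at h11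
        have h12 : B * Real.log u ≤ (B + A + 1) * Real.log u :=
          mul_le_mul_of_nonneg_right (by linarith) hlu
        linarith
      have h13 : |μ * m0 - u| ≤ 3 * ε1 * u := by
        have e : (m0 : ℝ) / 2 * Real.log (4 / 3) = μ * m0 := by rw [hμ]; ring
        rw [e] at h7
        rw [abs_le]; constructor <;> nlinarith [h7.1, h7.2]
      have e2 : (m0 : ℝ) - 2 / Real.log (4 / 3) * u = (μ * m0 - u) / μ := by
        rw [hμ]; field_simp
      rw [e2, abs_div, abs_of_pos hμpos, div_le_iff₀ hμpos]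
      calc |μ * m0 - u| ≤ 3 * ε1 * u := h13
        _ ≤ ε * μ * u := mul_le_mul_of_nonneg_right hε1b hu0.le
        _ = ε * u * μ := by ring
    · nlinarith)
  have hE2 : (hfin.toFinset.card : ℝ) ≤ S.card + small.card := by
    have h1 : hfin.toFinset ⊆ S ∪ small := by
      intro n hn
      rw [Finset.mem_union, hS, Finset.mem_sdiff]
      by_cases h : n ∈ small
      · exact Or.inr h
      · exact Or.inl ⟨hn, h⟩
    have h2 := (Finset.card_le_card h1).trans (Finset.card_union_le _ _)
    exact_mod_cast h2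
  have h3 : x ^ 2 * u ^ 4 / (x * u ^ (A + 5)) ≤ x / u ^ (A + 1) := by
    rw [div_le_div_iff₀ (by positivity) (by positivity)]
    have e1 : u ^ (A + 5) = u ^ (A + 1) * u ^ 4 := by
      rw [← Real.rpow_natCast u 4, ← Real.rpow_add hu0]; congr 1; push_cast; ring
    rw [e1]
    apply le_of_eq
    ring
  have h5 : 3 * (x / u ^ (A + 1)) ≤ x / u ^ A := by
    have e1 : u ^ (A + 1) = u ^ A * u := Real.rpow_add_one hu0.ne' A
    rw [e1, mul_div_assoc', div_le_div_iff₀ (by positivity) (by positivity)]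
    have h6 : 0 ≤ x * u ^ A * (u - 3) := by
      apply mul_nonneg (by positivity); linarith
    nlinarith
  linarith

end Pool.Agent.H363R2.Desc
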