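import Pool.Agent.H33.G.R_seed8.H363R2.KmapCount
import Pool.Agent.H33.G.R_seed8.H412R2.Final

set_option autoImplicit false

/-! The `3x+1` map on positive integers: many integers reach `1` in few steps. -/

namespace Pool.Agent.H363R2
open Pool.Agent.H412R2

theorem typicalStmt : TypicalStmt := fun η δ hη hδ => typical η δ hη hδ

theorem positiveStmt : PositiveStmt := fun κ hq hq2 hR g hg hpos => positive κ hq hq2 hR g hg hpos

theorem main_countK {k : ℤ} (hk : Odd k) (hk3 : ¬ (3 : ℤ) ∣ k) : MainCountK k :=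
  main_countK_of typicalStmt positiveStmt hk hk3

theorem trk_reach_C {E n s : ℕ} {x : ℕ} {z : ℤ} (hx : 1 ≤ x) (hz : z ∈ trk 1 E n s (x : ℤ)) :
    1 ≤ z ∧ ∃ j, j ≤ 2 * s ∧ fC^[j] z.toNat = x := by
  induction n generalizing s x with
  | zero =>
    rw [mem_trk_zero] at hz
    obtain ⟨_, rfl⟩ := hz
    exact ⟨by exact_mod_cast hx, 0, by omega, by simp⟩
  | succ n ih =>
    obtain ⟨e, b, he, _, hes, hb, hz'⟩ := mem_trk_succ.1 hz
    obtain ⟨e', rfl⟩ : ∃ e', e = e' + 1 := ⟨e - 1, by omega⟩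
    have h1 : (2 : ℤ) ^ (e' + 1) * x = 2 * (2 ^ e' * x) := by ring
    have hpos : (1 : ℤ) ≤ 2 ^ e' * (x : ℤ) := by
      have h3 : (1 : ℤ) ≤ 2 ^ e' := one_le_pow₀ (by norm_num)
      have h4 : (1 : ℤ) ≤ (x : ℤ) := by exact_mod_cast hx
      nlinarith
    have hb1 : 1 ≤ b := by
      rw [h1] at hb; omega
    obtain ⟨b', rfl⟩ : ∃ b' : ℕ, b = (b' : ℤ) := ⟨b.toNat, by omega⟩
    obtain ⟨hz1, k, hk2, hk⟩ := ih (by exact_mod_cast hb1) hz'
    refine ⟨hz1, (e' + 1) + (1 + k), by omega, ?_⟩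
    rw [Function.iterate_add_apply, Function.iterate_add_apply fC 1 k, hk, Function.iterate_one]
    have hb' : 3 * b' + 1 = 2 ^ (e' + 1) * x := by exact_mod_cast hb
    have h2 : fC b' = 2 ^ (e' + 1) * x := by
      unfold fC
      have h5 : 2 ^ (e' + 1) * x = 2 * (2 ^ e' * x) := by ring
      rw [h5] at hb' ⊢
      rw [if_neg (by omega)]
      omega
    rw [h2, fC_halves]

theorem log_le_of_large (C : ℝ) (hC : 0 < C) : ∃ z₀ : ℝ, ∀ z : ℝ, z₀ ≤ z → C * Real.log z ≤ z := by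
  have h := Real.isLittleO_log_id_atTop.bound (show (0 : ℝ) < 1 / C by positivity)
  rw [Filter.eventually_atTop] at h
  obtain ⟨z₀, h⟩ := h
  refine ⟨max z₀ 1, fun z hz => ?_⟩
  have h1 := h z ((le_max_left _ _).trans hz)
  have hz1 : 1 ≤ z := (le_max_right _ _).trans hz
  simp only [id, Real.norm_eq_abs, abs_of_nonneg (Real.log_nonneg hz1),
    abs_of_nonneg (show (0 : ℝ) ≤ z by linarith)] at h1
  calc C * Real.log z ≤ C * (1 / C * z) := mul_le_mul_of_nonneg_left h1 hC.le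
    _ = z := by field_simp

theorem pow_compare (c σ τ : ℝ) (hc : 0 < c) (h : τ < σ) : ∃ X₀ : ℝ, 1 ≤ X₀ ∧ ∀ X : ℝ, X₀ ≤ X →
    X ^ τ ≤ c * X ^ σ := by
  have h1 := tendsto_rpow_atTop (show 0 < σ - τ by linarith)
  have h2 := h1.eventually_ge_atTop (1 / c)
  rw [Filter.eventually_atTop] at h2
  obtain ⟨X₀, h2⟩ := h2
  refine ⟨max X₀ 1, le_max_right _ _, fun X hX => ?_⟩
  have hX1 : 1 ≤ X := (le_max_right _ _).trans hX
  have h3 := h2 X ((le_max_left _ _).trans hX)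
  have hX0 : 0 < X := by linarith
  have e : X ^ σ = X ^ (σ - τ) * X ^ τ := by
    rw [← Real.rpow_add hX0]; congr 1; ring
  have h4 : 1 ≤ c * X ^ (σ - τ) := by
    calc (1 : ℝ) = c * (1 / c) := by field_simp
      _ ≤ _ := mul_le_mul_of_nonneg_left h3 hc.le
  rw [e, ← mul_assoc]
  have h5 : 0 ≤ X ^ τ := by positivity
  nlinarith

/-- at least `X^(1-ε)` of the positive integers up to `X` reach `1` in `O(log n)` Collatz steps -/
theorem collatz_fast : ∀ ε : ℝ, 0 < ε → ∃ C : ℝ, 0 < C ∧ ∃ X₀ : ℕ, ∀ X : ℕ, X₀ ≤ X →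
    (X : ℝ) ^ (1 - ε) ≤
      ({n : ℕ | 1 ≤ n ∧ n ≤ X ∧ ∃ k : ℕ, (k : ℝ) ≤ C * Real.log n ∧ k ≤ n ∧
        fC^[k] n = 1}.ncard : ℝ) := by
  intro ε hε
  set σ : ℝ := max (3 / 4) (1 - ε / 2) with hσ
  have hσ0 : 3 / 4 ≤ σ := le_max_left _ _
  have hσ1 : σ < 1 := max_lt (by norm_num) (by linarith)
  have hσ2 : 1 - ε < σ := lt_of_lt_of_le (by linarith) (le_max_right _ _)
  obtain ⟨c, C, B₀, hc, hC, hB₀, H⟩ := main_countK (k := 1) (by decide) (by norm_num) σ
    (by linarith) hσ1 1 (by norm_num)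
  obtain ⟨z₀, hz₀⟩ := log_le_of_large (8 * C) (by positivity)
  obtain ⟨X₁, hX₁, hp₁⟩ := pow_compare (c / 2) σ (1 - ε) (by positivity) hσ2
  obtain ⟨X₂, hX₂, hp₂⟩ := pow_compare (c / 2) σ (1 / 2) (by positivity) (by linarith)
  refine ⟨8 * C, by positivity, ⌈max (max X₁ X₂) (max B₀ (max (z₀ ^ 2) 3))⌉₊, fun X hX => ?_⟩
  have hX' : max (max X₁ X₂) (max B₀ (max (z₀ ^ 2) 3)) ≤ (X : ℝ) :=
    (Nat.le_ceil _).trans (by exact_mod_cast hX)
  have a1 : X₁ ≤ X := ((le_max_left _ _).trans (le_max_left _ _)).trans hX'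
  have a2 : X₂ ≤ X := ((le_max_right _ _).trans (le_max_left _ _)).trans hX'
  have a3 : B₀ ≤ X := ((le_max_left _ _).trans (le_max_right _ _)).trans hX'
  have a4 : z₀ ^ 2 ≤ X := ((le_max_left _ _).trans ((le_max_right _ _).trans (le_max_right _ _))).trans hX'
  have a5 : (3 : ℝ) ≤ X := ((le_max_right _ _).trans ((le_max_right _ _).trans (le_max_right _ _))).trans hX'
  have hX0 : (0 : ℝ) < X := by linarith
  have hlogX : 1 ≤ Real.log X := by
    rw [Real.le_log_iff_exp_le hX0]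
    have := Real.exp_one_lt_d9
    linarith
  obtain ⟨F, hF1, hF2⟩ := H X a3
  set S : Set ℕ := {n : ℕ | 1 ≤ n ∧ n ≤ X ∧ ∃ k : ℕ, (k : ℝ) ≤ 8 * C * Real.log n ∧ k ≤ n ∧
        fC^[k] n = 1} with hS
  have hSfin : S.Finite := (Set.finite_Icc 1 X).subset (fun n hn => ⟨hn.1, hn.2.1⟩)
  have hpos : ∀ z ∈ F, 1 ≤ z := by
    intro z hz
    obtain ⟨_, E, n, s, _, h2⟩ := hF1 z hz
    exact (trk_reach_C (x := 1) le_rfl (by exact_mod_cast h2)).1
  -- the large elements of `F` lie in `S`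
  have hsub : ((F.image Int.toNat) : Set ℕ) ⊆ S ∪ (Finset.Icc 1 (Nat.sqrt X) : Finset ℕ) := by
    intro n hn
    rw [Finset.mem_coe, Finset.mem_image] at hn
    obtain ⟨z, hz, rfl⟩ := hn
    obtain ⟨h0, E, n, s, hs, h2⟩ := hF1 z hz
    obtain ⟨h3, j, hj, hj1⟩ := trk_reach_C (x := 1) le_rfl (by exact_mod_cast h2)
    have h4 : ((z.toNat : ℕ) : ℝ) = (z : ℝ) := by
      have : ((z.toNat : ℕ) : ℤ) = z := Int.toNat_of_nonneg (by omega)
      exact_mod_cast this
    have hzX : z.toNat ≤ X := by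
      have h5 : (z : ℝ) ≤ |(z : ℝ)| := le_abs_self _
      have : ((z.toNat : ℕ) : ℝ) ≤ X := by rw [h4]; linarith
      exact_mod_cast this
    by_cases hsm : z.toNat ≤ Nat.sqrt X
    · right
      rw [Finset.mem_coe, Finset.mem_Icc]
      exact ⟨by omega, hsm⟩
    · left
      rw [not_le] at hsm
      have h6 : X < z.toNat ^ 2 := by
        have := Nat.sqrt_lt'.1 hsm
        exact this
      have h6' : (X : ℝ) < (z.toNat : ℝ) ^ 2 := by exact_mod_cast h6
      have hz1 : (1 : ℝ) ≤ (z.toNat : ℝ) := by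
        have : 1 ≤ z.toNat := by omega
        exact_mod_cast this
      have h7 : Real.log X ≤ 2 * Real.log (z.toNat : ℝ) := by
        have := Real.log_le_log hX0 h6'.le
        rwa [Real.log_pow] at this
      have hjlog : (j : ℝ) ≤ 8 * C * Real.log (z.toNat : ℝ) := by
        have hj' : (j : ℝ) ≤ 2 * s := by exact_mod_cast hj
        have h8 : C * (1 + Real.log X) ≤ C * (4 * Real.log (z.toNat : ℝ)) :=
          mul_le_mul_of_nonneg_left (by linarith) hC.le
        linarith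
      refine ⟨by omega, hzX, j, hjlog, ?_, hj1⟩
      have h9 : z₀ ≤ (z.toNat : ℝ) := by
        by_contra hlt
        rw [not_le] at hlt
        have : (z.toNat : ℝ) ^ 2 ≤ z₀ ^ 2 := pow_le_pow_left₀ (by linarith) hlt.le 2
        linarith
      have h10 := hz₀ _ h9
      have : (j : ℝ) ≤ (z.toNat : ℝ) := hjlog.trans h10
      exact_mod_cast this
  have himg : (F.image Int.toNat).card = F.card := by
    apply Finset.card_image_of_injOn
    intro z hz w hw h
    have h1 := hpos z hz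
    have h2 := hpos w hw
    have h3 : z.toNat = w.toNat := h
    omega
  have hcard : F.card ≤ S.ncard + Nat.sqrt X := by
    have h1 := Set.ncard_le_ncard hsub (hSfin.union (Finset.finite_toSet _))
    rw [Set.ncard_coe_finset, himg] at h1
    refine h1.trans ((Set.ncard_union_le _ _).trans ?_)
    rw [Set.ncard_coe_finset, Nat.card_Icc]
    omega
  have hcard' : (F.card : ℝ) ≤ S.ncard + Nat.sqrt X := by exact_mod_cast hcard
  have hsq : (Nat.sqrt X : ℝ) ≤ (X : ℝ) ^ (1 / 2 : ℝ) := by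
    rw [← Real.sqrt_eq_rpow]
    apply Real.le_sqrt_of_sq_le
    exact_mod_cast Nat.sqrt_le' X
  have h1 := hp₁ X a1
  have h2 := hp₂ X a2
  linarith

end Pool.Agent.H363R2
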