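import Pool.Agent.H33.G.R_seed8.H363R2.Kmap
import Pool.Agent.H33.G.R_seed8.H363R2.CountS

set_option autoImplicit false

/-!
The counting theorem for the `3x+k` maps, with a logarithmic bound for the number of steps.
-/

namespace Pool.Agent.H363R2
open Pool.Agent.H412R2

theorem exists_inv {k : ℤ} (hk3 : ¬ (3 : ℤ) ∣ k) (T : ℕ) : ∃ u : ℤ, (3 : ℤ) ^ (T + 1) ∣ k * u - 1 := by
  have h1 : IsCoprime (3 : ℤ) k := (Int.prime_three.coprime_iff_not_dvd).2 hk3
  obtain ⟨a, b, hab⟩ := h1.pow_left (m := T + 1)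
  exact ⟨b, -a, by linear_combination hab⟩

theorem hposk {k u : ℤ} {η σ : ℝ} {T : ℕ} (hk3 : ¬ (3 : ℤ) ∣ k)
    (hu : (3 : ℤ) ^ (T + 1) ∣ k * u - 1) (hη : η ≤ c2 / 4) (hT : 20 ≤ T)
    (hpos : ∀ r ∈ Finset.Ico 1 3,
      0 < ∑ x ∈ (Finset.range (3 ^ (T + 1))).filter (fun x => x % 3 = r),
        (Real.log ((KK η T (x : ℤ)).card) - σ * Real.log (2 ^ (SS η T (x : ℤ)) / (3 : ℝ) ^ T))) :
    ∀ r ∈ Finset.Ico 1 3,
      0 < ∑ x ∈ (Finset.range (3 ^ (T + 1))).filter (fun x => x % 3 = r),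
        (Real.log ((Kk k u η T (x : ℤ)).card) - σ * Real.log (2 ^ (Sk u η T (x : ℤ)) / (3 : ℝ) ^ T)) := by
  classical
  intro r hr
  have hr' := Finset.mem_Ico.1 hr
  have hM : (0 : ℤ) < 3 ^ (T + 1) := by positivity
  have hu3 : ¬ (3 : ℤ) ∣ u := by
    intro h
    have h1 : (3 : ℤ) ∣ k * u - 1 := (Dvd.intro _ (pow_succ' 3 T).symm : (3 : ℤ) ∣ 3 ^ (T + 1)).trans hu
    have h2 : (3 : ℤ) ∣ k * u := Dvd.dvd.mul_left h k
    omega
  set r' : ℕ := ((r * u) % 3).toNat with hr'def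
  have hxnn : ∀ x : ℤ, 0 ≤ xr u T x := fun x => Int.emod_nonneg _ hM.ne'
  have hxlt : ∀ x : ℤ, xr u T x < 3 ^ (T + 1) := fun x => Int.emod_lt_of_pos _ hM
  have hxmod : ∀ x : ℤ, xr u T x % 3 = (x * u) % 3 := by
    intro x
    unfold xr
    rw [Int.emod_emod_of_dvd]
    exact Dvd.intro _ (pow_succ' 3 T).symm
  have hr'mem : r' ∈ Finset.Ico 1 3 := by
    rw [Finset.mem_Ico, hr'def]
    have h1 : ¬ (3 : ℤ) ∣ (r : ℤ) := by omega
    have h2 : ¬ (3 : ℤ) ∣ (r : ℤ) * u := by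
      intro h
      rcases Int.prime_three.dvd_or_dvd h with h | h
      · exact h1 h
      · exact hu3 h
    omega
  set C := (Finset.range (3 ^ (T + 1))).filter (fun x => x % 3 = r) with hC
  set C' := (Finset.range (3 ^ (T + 1))).filter (fun x => x % 3 = r') with hC'
  have hmaps : Set.MapsTo (fun x : ℕ => (xr u T (x : ℤ)).toNat) (C : Set ℕ) (C' : Set ℕ) := by
    intro x hx
    rw [Finset.mem_coe, hC, Finset.mem_filter, Finset.mem_range] at hx
    rw [Finset.mem_coe, hC', Finset.mem_filter, Finset.mem_range]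
    have h1 := hxnn x
    have h2 := hxlt x
    have h3 := hxmod x
    constructor
    · have : ((xr u T (x : ℤ)).toNat : ℤ) < ((3 ^ (T + 1) : ℕ) : ℤ) := by
        rw [Int.toNat_of_nonneg h1]; exact_mod_cast h2
      exact_mod_cast this
    · have h4 : ((x : ℤ) * u) % 3 = ((r : ℤ) * u) % 3 := by
        have : (x : ℤ) % 3 = (r : ℤ) % 3 := by omega
        rw [Int.mul_emod, this, ← Int.mul_emod]
      change (xr u T (x : ℤ)).toNat % 3 = r'
      rw [hr'def]
      omega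
  have hinj : Set.InjOn (fun x : ℕ => (xr u T (x : ℤ)).toNat) (C : Set ℕ) := by
    intro x hx y hy hxy
    rw [Finset.mem_coe, hC, Finset.mem_filter, Finset.mem_range] at hx hy
    have h1 : xr u T (x : ℤ) = xr u T (y : ℤ) := by
      have e1 := Int.toNat_of_nonneg (hxnn x)
      have e2 := Int.toNat_of_nonneg (hxnn y)
      rw [← e1, ← e2]
      exact_mod_cast hxy
    obtain ⟨a, ha⟩ := xr_spec hu (x : ℤ)
    obtain ⟨b, hb⟩ := xr_spec hu (y : ℤ)
    have h2 : (x : ℤ) - y = 3 ^ (T + 1) * (a - b) := by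
      rw [pow_succ]
      linear_combination ha - hb + k * h1
    have h3 : (3 : ℤ) ^ (T + 1) ∣ (x : ℤ) - y := Dvd.intro _ h2.symm
    have hx1 : (x : ℤ) < 3 ^ (T + 1) := by exact_mod_cast hx.1
    have hy1 : (y : ℤ) < 3 ^ (T + 1) := by exact_mod_cast hy.1
    have h4 : (x : ℤ) - y = 0 := by
      apply Int.eq_zero_of_abs_lt_dvd h3
      rw [abs_lt]
      constructor <;> omega
    omega
  have hsurj : Set.SurjOn (fun x : ℕ => (xr u T (x : ℤ)).toNat) (C : Set ℕ) (C' : Set ℕ) := by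
    apply Finset.surjOn_of_injOn_of_card_le _ hmaps hinj
    rw [hC, hC', class_card T r hr, class_card T r' hr'mem]
  have hsum : ∑ x ∈ C, (Real.log ((KK η T (((xr u T (x : ℤ)).toNat : ℕ) : ℤ)).card) -
      σ * Real.log (2 ^ (SS η T (((xr u T (x : ℤ)).toNat : ℕ) : ℤ)) / (3 : ℝ) ^ T)) =
      ∑ x ∈ C', (Real.log ((KK η T (x : ℤ)).card) -
        σ * Real.log (2 ^ (SS η T (x : ℤ)) / (3 : ℝ) ^ T)) :=
    Finset.sum_nbij (fun x : ℕ => (xr u T (x : ℤ)).toNat) (fun x hx => hmaps hx) hinj hsurj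
      (fun x _ => rfl)
  refine lt_of_lt_of_le (hpos r' hr'mem) ?_
  rw [← hsum]
  refine Finset.sum_le_sum (fun x hx => ?_)
  rw [hC, Finset.mem_filter] at hx
  have hx3 : ¬ (3 : ℤ) ∣ (x : ℤ) := by omega
  rw [Int.toNat_of_nonneg (hxnn x)]
  have h1 := card_Kk (η := η) hk3 hu (x : ℤ)
  have h2 := KK_card_ge hη hT (xr_unit hu hx3)
  have h3 : Real.log ((KK η T (xr u T (x : ℤ))).card : ℝ) ≤
      Real.log ((Kk k u η T (x : ℤ)).card : ℝ) := by
    apply Real.log_le_log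
    · have : 0 < (KK η T (xr u T (x : ℤ))).card := by omega
      exact_mod_cast this
    · exact_mod_cast h1
  unfold Sk
  linarith

/-- the counting statement for the `3x+k` map -/
def MainCountK (k : ℤ) : Prop := ∀ σ : ℝ, 0 < σ → σ < 1 → ∀ a : ℤ, ¬ (3 : ℤ) ∣ a →
    ∃ c C B₀ : ℝ, 0 < c ∧ 0 < C ∧ 1 ≤ B₀ ∧ ∀ B : ℝ, B₀ ≤ B → ∃ F : Finset ℤ,
      (∀ z ∈ F, (|z| : ℝ) ≤ B ∧ ∃ E n s : ℕ, (s : ℝ) ≤ C * (1 + Real.log B) ∧
        z ∈ trk k E n s a) ∧ c * B ^ σ ≤ F.card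

theorem main_countK_of (typ : TypicalStmt) (pos : PositiveStmt) {k : ℤ} (hk : Odd k)
    (hk3 : ¬ (3 : ℤ) ∣ k) : MainCountK k := by
  intro σ hσ hσ1 a ha
  set σ' : ℝ := (1 + σ) / 2 with hσ'
  have hs1 : σ' < 1 := by rw [hσ']; linarith
  have hs2 : σ < σ' := by rw [hσ']; linarith
  have hc := c2_gt
  set η : ℝ := (1 - σ') * c2 / 4 with hη
  have hη4 : η ≤ c2 / 4 := by
    rw [hη]
    have : 0 ≤ σ' * c2 := by
      apply mul_nonneg <;> linarith
    linarith
  obtain ⟨T, hT, hpos⟩ := ker_hpos typ σ' η hs1 hη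
  obtain ⟨u, hu⟩ := exists_inv hk3 T
  obtain ⟨c, C, B₀, hc0, hC0, hB₀, hcount⟩ := countS_of_positive
    (kerk u hk hk3 η T hu hη4 hT) Nat.prime_three σ'
    (by linarith)
    (by
      intro x _
      have h := two_pow_gt (by omega) (SS_ge η T (xr u T x))
      change ((3 : ℕ) : ℝ) ^ T < 2 ^ (SS η T (xr u T x))
      exact_mod_cast h)
    (by
      intro x b _ hb
      change |((3 : ℕ) : ℤ) ^ T * b - 2 ^ (Sk u η T x) * x| ≤
        2 ^ (6 * T + k.natAbs) * ((3 : ℕ) : ℤ) ^ T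
      have hb' : b ∈ trk k (6 * T) T (Sk u η T x) x := (Finset.mem_filter.1 hb).1
      obtain ⟨o, ho1, ho2, ho3⟩ := trk_off hb'
      have hS : Sk u η T x ≤ 6 * T := SS_le η T _
      have e1 : |((3 : ℕ) : ℤ) ^ T * b - 2 ^ (Sk u η T x) * x| = |k| * o := by
        have : ((3 : ℕ) : ℤ) ^ T * b - 2 ^ (Sk u η T x) * x = -(k * o) := by
          push_cast
          linarith
        rw [this, abs_neg, abs_mul, abs_of_nonneg ho1]
      rw [e1]
      calc |k| * o ≤ 2 ^ k.natAbs * (2 ^ (Sk u η T x) * 3 ^ T) :=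
            mul_le_mul (natAbs_le_two_pow k) ho2 ho1 (by positivity)
        _ ≤ 2 ^ k.natAbs * (2 ^ (6 * T) * 3 ^ T) := by
            apply mul_le_mul_of_nonneg_left _ (by positivity)
            apply mul_le_mul_of_nonneg_right _ (by positivity)
            exact pow_le_pow_right₀ (by norm_num) hS
        _ = 2 ^ (6 * T + k.natAbs) * ((3 : ℕ) : ℤ) ^ T := by
            rw [pow_add]; push_cast; ring)
    (by
      intro r hr
      exact hposk hk3 hu hη4 hT hpos r hr)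
    (pos (kerk u hk hk3 η T hu hη4 hT) Nat.prime_three (by norm_num) (by omega)) a
    (by exact_mod_cast ha)
  refine ⟨c / (1 + 1 / ((σ' - σ) / 2)) ^ 2, 6 * T * C, B₀, ?_, ?_, hB₀, ?_⟩
  · have : 0 < (σ' - σ) / 2 := by linarith
    positivity
  · have : 0 < T := by omega
    have hT0 : (0 : ℝ) < T := by exact_mod_cast this
    positivity
  · intro B hB
    obtain ⟨F, hF1, hF2⟩ := hcount B hB
    refine ⟨F, ?_, absorb (hB₀.trans hB) hs2 (by positivity) hF2⟩
    intro z hz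
    obtain ⟨h1, j, s, hj, h2⟩ := hF1 z hz
    refine ⟨h1, 6 * T, T * j, s, ?_, pathk_tr h2⟩
    have h3 : s ≤ 6 * T * j := pathk_size h2
    have h4 : (s : ℝ) ≤ 6 * T * j := by exact_mod_cast h3
    calc (s : ℝ) ≤ 6 * T * j := h4
      _ ≤ 6 * T * (C * (1 + Real.log B)) := mul_le_mul_of_nonneg_left hj (by positivity)
      _ = 6 * T * C * (1 + Real.log B) := by ring

/-! ### the maps -/

/-- the `3x+k` map -/
def Tk (k : ℤ) : ℤ → ℤ := fun m : ℤ => if m % 2 = 0 then m / 2 else (3 * m + k) / 2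

theorem Tk_halves (k : ℤ) (m : ℕ) (x : ℤ) : (Tk k)^[m] (2 ^ m * x) = x := by
  induction m with
  | zero => simp
  | succ m ih =>
    rw [Function.iterate_succ_apply]
    have : Tk k (2 ^ (m + 1) * x) = 2 ^ m * x := by
      have e : (2 : ℤ) ^ (m + 1) * x = 2 * (2 ^ m * x) := by ring
      unfold Tk
      rw [e, if_pos (by omega)]
      omega
    rw [this, ih]

theorem trk_reach {k : ℤ} (hk : Odd k) {E n s : ℕ} {x z : ℤ} (hz : z ∈ trk k E n s x) :
    (Tk k)^[s] z = x := by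
  induction n generalizing s x with
  | zero =>
    rw [mem_trk_zero] at hz
    obtain ⟨rfl, rfl⟩ := hz
    rfl
  | succ n ih =>
    obtain ⟨e, b, he, _, hes, hb, hz'⟩ := mem_trk_succ.1 hz
    have hk' := ih hz'
    have hbo := odd_childk hk he hb
    obtain ⟨e', rfl⟩ : ∃ e', e = e' + 1 := ⟨e - 1, by omega⟩
    have hs : s = e' + (1 + (s - (e' + 1))) := by omega
    rw [hs, Function.iterate_add_apply, Function.iterate_add_apply, hk', Function.iterate_one]
    have h1 : (2 : ℤ) ^ (e' + 1) * x = 2 * (2 ^ e' * x) := by ring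
    rw [h1] at hb
    have h2 : Tk k b = 2 ^ e' * x := by
      unfold Tk
      obtain ⟨c, hc⟩ := hbo
      rw [if_neg (by omega)]
      omega
    rw [h2, Tk_halves]

end Pool.Agent.H363R2
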