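import Pool.Agent.H33.G.R_seed8.H363R2.TrajSum

set_option autoImplicit false

/-! The tag system `0 ↦ 12, 1 ↦ 0, 2 ↦ 000` of de Mol: many words `0^n` reach `0`. -/

namespace Pool.Agent.H363R2
open Pool.Agent.H412R2 Finset

/-- `v` is reached from `u` in `k` steps, all earlier words having length at least `2` -/
def TReach (step : List (Fin 3) → List (Fin 3)) (k : ℕ) (u v : List (Fin 3)) : Prop :=
  step^[k] u = v ∧ ∀ j < k, 2 ≤ (step^[j] u).length

theorem TReach.head {step : List (Fin 3) → List (Fin 3)} {k : ℕ} {u u' v : List (Fin 3)}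
    (h : step u = u') (hu : 2 ≤ u.length) (h' : TReach step k u' v) : TReach step (k + 1) u v := by
  subst h
  refine ⟨by rw [Function.iterate_succ_apply]; exact h'.1, fun j hj => ?_⟩
  rcases j with _ | j
  · exact hu
  · rw [Function.iterate_succ_apply]
    exact h'.2 j (by omega)

theorem TReach.trans {step : List (Fin 3) → List (Fin 3)} {k l : ℕ} {u v w : List (Fin 3)}
    (h : TReach step k u v) (h' : TReach step l v w) : TReach step (k + l) u w := by
  refine ⟨by rw [add_comm, Function.iterate_add_apply, h.1, h'.1], fun j hj => ?_⟩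
  by_cases hjk : j < k
  · exact h.2 j hjk
  · obtain ⟨i, rfl⟩ : ∃ i, j = i + k := ⟨j - k, by omega⟩
    rw [Function.iterate_add_apply, h.1]
    exact h'.2 i (by omega)

/-- `i` copies of the word `v` -/
def blk (i : ℕ) (v : List (Fin 3)) : List (Fin 3) := (List.replicate i v).flatten

theorem blk_zero (v : List (Fin 3)) : blk 0 v = [] := rfl

theorem blk_succ (i : ℕ) (v : List (Fin 3)) : blk (i + 1) v = v ++ blk i v := by
  unfold blk
  rw [List.replicate_succ, List.flatten_cons]

theorem blk_succ' (i : ℕ) (v : List (Fin 3)) : blk (i + 1) v = blk i v ++ v := by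
  unfold blk
  rw [List.replicate_succ', List.flatten_append]
  simp

theorem blk_rep1 (i : ℕ) : blk i [0] = List.replicate i 0 := by
  induction i with
  | zero => rfl
  | succ i ih => rw [blk_succ, ih, List.replicate_succ]; rfl

theorem blk_rep2 (i : ℕ) : blk i [0, 0] = List.replicate (2 * i) 0 := by
  induction i with
  | zero => rfl
  | succ i ih =>
    rw [blk_succ, ih, show 2 * (i + 1) = (2 * i + 1) + 1 by ring, List.replicate_succ,
      List.replicate_succ]; rfl

theorem blk_rep3 (i : ℕ) : blk i [0, 0, 0] = List.replicate (3 * i) 0 := by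
  induction i with
  | zero => rfl
  | succ i ih =>
    rw [blk_succ, ih, show 3 * (i + 1) = ((3 * i + 1) + 1) + 1 by ring, List.replicate_succ,
      List.replicate_succ, List.replicate_succ]; rfl

theorem blk_shift (i : ℕ) (a b : Fin 3) : blk i [a, b] ++ [a] = a :: blk i [b, a] := by
  induction i with
  | zero => rfl
  | succ i ih =>
    rw [blk_succ, blk_succ, List.append_assoc, ih]; rfl

theorem sweep {step : List (Fin 3) → List (Fin 3)} {a b : Fin 3} {v : List (Fin 3)}
    (h : ∀ u, step (a :: b :: u) = u ++ v) :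
    ∀ (i : ℕ) (w : List (Fin 3)), TReach step i (blk i [a, b] ++ w) (w ++ blk i v) := by
  intro i
  induction i with
  | zero => intro w; exact ⟨by simp [blk_zero], by omega⟩
  | succ i ih =>
    intro w
    have h1 : step (blk (i + 1) [a, b] ++ w) = blk i [a, b] ++ (w ++ v) := by
      rw [blk_succ]
      change step (a :: b :: (blk i [a, b] ++ w)) = _
      rw [h, List.append_assoc]
    have h2 := ih (w ++ v)
    have h3 : (w ++ v) ++ blk i v = w ++ blk (i + 1) v := by
      rw [blk_succ, List.append_assoc]
    rw [h3] at h2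
    refine TReach.head h1 ?_ h2
    rw [blk_succ]
    simp

/-- one step of the `3x+1` map is simulated in at most `m + 1` tag steps -/
theorem tag_T {step : List (Fin 3) → List (Fin 3)}
    (hstep : ∀ w : List (Fin 3), step w = w.drop 2 ++
        (if w.headD 0 = 0 then ([1, 2] : List (Fin 3))
         else if w.headD 0 = 1 then ([0] : List (Fin 3))
         else ([0, 0, 0] : List (Fin 3)))) (m : ℕ) (hm : 2 ≤ m) :
    ∃ k m' : ℕ, k ≤ m + 1 ∧ (m' : ℤ) = fT m ∧
      TReach step k (List.replicate m 0) (List.replicate m' 0) := by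
  have s0 : ∀ (b : Fin 3) (u : List (Fin 3)), step (0 :: b :: u) = u ++ [1, 2] := by
    intro b u; rw [hstep]; simp
  have s1 : ∀ (b : Fin 3) (u : List (Fin 3)), step (1 :: b :: u) = u ++ [0] := by
    intro b u; rw [hstep]; simp
  have s2 : ∀ (b : Fin 3) (u : List (Fin 3)), step (2 :: b :: u) = u ++ [0, 0, 0] := by
    intro b u; rw [hstep]; simp
  rcases Nat.even_or_odd' m with ⟨h, rfl | rfl⟩
  · -- even
    refine ⟨h + h, h, by omega, ?_, ?_⟩
    · unfold fT
      rw [if_pos (by omega)]
      omega
    · have t1 := sweep (s0 0) h []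
      have t2 := sweep (s1 2) h []
      rw [List.append_nil, List.nil_append, blk_rep2] at t1
      rw [List.append_nil, List.nil_append, blk_rep1] at t2
      exact t1.trans t2
  · -- odd
    obtain ⟨h, rfl⟩ : ∃ h', h = h' + 1 := ⟨h - 1, by omega⟩
    refine ⟨(h + 1) + ((h + 1) + 1 + 1), 3 * (h + 1) + 2, by omega, ?_, ?_⟩
    · unfold fT
      rw [if_neg (by omega)]
      omega
    · have t1 := sweep (s0 0) (h + 1) [0]
      have e1 : blk (h + 1) [0, 0] ++ [0] = List.replicate (2 * (h + 1) + 1) 0 := by
        rw [blk_rep2, List.replicate_succ']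
      rw [e1] at t1
      -- after the first sweep: `0 (12)^(h+1)`
      have e2 : step ([0] ++ blk (h + 1) [1, 2]) = blk (h + 1) [2, 1] ++ [2] := by
        rw [blk_succ]
        change step (0 :: 1 :: ([2] ++ blk h [1, 2])) = _
        rw [s0]
        have e3 : ([2] ++ blk h [1, 2] : List (Fin 3)) = blk h [2, 1] ++ [2] := by
          rw [blk_shift]; rfl
        have e4 : blk (h + 1) [2, 1] ++ [2] = blk h [2, 1] ++ [2] ++ [1, 2] := by
          rw [blk_shift h 2 1, blk_shift (h + 1) 2 1]
          rw [blk_succ']; rfl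
        rw [e3, e4]
      have t3 := sweep (s2 1) (h + 1) [2]
      have e5 : step ([2] ++ blk (h + 1) [0, 0, 0]) = List.replicate (3 * (h + 1) + 2) 0 := by
        rw [blk_succ]
        change step (2 :: 0 :: ([0, 0] ++ blk h [0, 0, 0])) = _
        rw [s2, blk_rep3]
        change List.replicate 2 0 ++ List.replicate (3 * h) 0 ++ List.replicate 3 0 = _
        rw [List.replicate_append_replicate, List.replicate_append_replicate]
        congr 1
        omega
      have t4 : TReach step 1 ([2] ++ blk (h + 1) [0, 0, 0]) (List.replicate (3 * (h + 1) + 2) 0) := by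
        refine TReach.head e5 ?_ ⟨rfl, by omega⟩
        rw [blk_succ]
        simp
      have t5 := t3.trans t4
      exact t1.trans (TReach.head e2 (by rw [blk_succ]; simp) t5)

/-- a trajectory of the `3x+1` map from `m` to `1` gives a run of the tag system from `0^m`
to `0` -/
theorem tag_run {step : List (Fin 3) → List (Fin 3)}
    (hstep : ∀ w : List (Fin 3), step w = w.drop 2 ++
        (if w.headD 0 = 0 then ([1, 2] : List (Fin 3))
         else if w.headD 0 = 1 then ([0] : List (Fin 3))
         else ([0, 0, 0] : List (Fin 3)))) (s : ℕ) :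
    ∀ m : ℕ, 1 ≤ m → fT^[s] (m : ℤ) = 1 → ∃ k : ℕ,
      (k : ℤ) ≤ ∑ i ∈ range s, (fT^[i] (m : ℤ) + 1) ∧ TReach step k (List.replicate m 0) [0] := by
  induction s with
  | zero =>
    intro m _ h
    have h1 : m = 1 := by
      have : (m : ℤ) = 1 := h
      omega
    subst h1
    exact ⟨0, by simp, rfl, by omega⟩
  | succ s ih =>
    intro m hm h
    by_cases hm2 : 2 ≤ m
    · obtain ⟨k, m', hk, hm', hr⟩ := tag_T hstep m hm2
      have h1 : fT^[s] (m' : ℤ) = 1 := by
        rw [hm', ← Function.iterate_succ_apply]; exact h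
      have h2 : 1 ≤ m' := by
        have h3 := (fT_iter_bound 1 (show (1 : ℤ) ≤ m by exact_mod_cast hm)).1
        rw [Function.iterate_one, ← hm'] at h3
        omega
      obtain ⟨l, hl, hr'⟩ := ih m' h2 h1
      refine ⟨k + l, ?_, hr.trans hr'⟩
      rw [Finset.sum_range_succ']
      have h4 : ∑ i ∈ range s, (fT^[i + 1] (m : ℤ) + 1) = ∑ i ∈ range s, (fT^[i] (m' : ℤ) + 1) := by
        refine Finset.sum_congr rfl fun i _ => ?_
        rw [Function.iterate_succ_apply, hm']
      rw [h4]
      push_cast
      have h5 : (k : ℤ) ≤ m + 1 := by exact_mod_cast hk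
      simp only [Function.iterate_zero, id]
      linarith
    · have h1 : m = 1 := by omega
      subst h1
      refine ⟨0, ?_, rfl, by omega⟩
      push_cast
      apply Finset.sum_nonneg
      intro i _
      have := (fT_iter_bound i (le_refl (1 : ℤ))).1
      linarith

end Pool.Agent.H363R2
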