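import Pool.Agent.H33.G.R_seed8.H363R2.Sharp
import Pool.Agent.H33.G.R_seed8.H363R2.TagSys

set_option autoImplicit false

/-! Corollaries of `sharp`. -/

namespace Pool.Agent.H363R2
open Finset Filter

/-- transfer from finsets to densities -/
theorem card_transfer (Q : ℕ → Prop) (c X : ℝ) (S : Finset ℕ)
    (hS : ∀ n ∈ S, 1 ≤ n ∧ (n : ℝ) ≤ X ∧ Q n) (hc : c * X ≤ S.card) :
    c * X ≤ (Set.ncard {n : ℕ | 1 ≤ n ∧ (n : ℝ) ≤ X ∧ Q n} : ℝ) := by
  have hfin : {n : ℕ | 1 ≤ n ∧ (n : ℝ) ≤ X ∧ Q n}.Finite := by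
    apply (Set.finite_Iic ⌊X⌋₊).subset
    intro n hn
    exact Nat.le_floor hn.2.1
  have h1 : (S : Set ℕ) ⊆ {n : ℕ | 1 ≤ n ∧ (n : ℝ) ≤ X ∧ Q n} := fun n hn => hS n hn
  have h2 := Set.ncard_le_ncard h1 hfin
  rw [Set.ncard_coe_finset] at h2
  have h3 : (S.card : ℝ) ≤ (Set.ncard {n : ℕ | 1 ≤ n ∧ (n : ℝ) ≤ X ∧ Q n} : ℝ) := by
    exact_mod_cast h2
  linarith

/-- the total stopping time of a positive proportion of the integers is as expected -/
theorem sharp_time (ε : ℝ) (hε : 0 < ε) : ∃ c : ℝ, 0 < c ∧ ∀ᶠ x : ℝ in atTop,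
    c * x ≤ (Set.ncard {n : ℕ | 1 ≤ n ∧ (n : ℝ) ≤ x ∧ ∃ t : ℕ, TN^[t] n = 1 ∧
      (∀ j < t, TN^[j] n ≠ 1) ∧
      |(t : ℝ) - 2 / Real.log (4 / 3) * Real.log n| ≤ ε * Real.log n} : ℝ) := by
  obtain ⟨c, hc, X0, h⟩ := sharp ε hε
  refine ⟨c, hc, ?_⟩
  filter_upwards [eventually_ge_atTop X0] with X hX
  obtain ⟨S, hS, hcard⟩ := h X hX
  refine card_transfer _ c X S (fun n hn => ?_) hcard
  obtain ⟨h1, _, h3, t, h4, h5, h6, _⟩ := hS n hn
  exact ⟨h1, h3, t, h4, h5, h6⟩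

/-- the maximum excursion of a positive proportion of the integers -/
theorem sharp_max : ∃ c : ℝ, 0 < c ∧ ∀ᶠ x : ℝ in atTop,
    c * x ≤ (Set.ncard {n : ℕ | 1 ≤ n ∧ (n : ℝ) ≤ x ∧
      ∀ k : ℕ, ((TN^[k] n : ℕ) : ℝ) ≤ n * Real.log n ^ 6} : ℝ) := by
  obtain ⟨c, hc, X0, h⟩ := sharp 1 one_pos
  refine ⟨c, hc, ?_⟩
  filter_upwards [eventually_ge_atTop X0] with X hX
  obtain ⟨S, hS, hcard⟩ := h X hX
  refine card_transfer _ c X S (fun n hn => ?_) hcard
  obtain ⟨h1, _, h3, t, h4, h5, h6, h7⟩ := hS n hn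
  exact ⟨h1, h3, h7⟩

/-! ### the unaccelerated map -/

def CN : ℕ → ℕ := fun m : ℕ => if m % 2 = 0 then m / 2 else 3 * m + 1

open Pool.Agent.H320R2.PD in
theorem CN_iter (t : ℕ) : ∀ n : ℕ, CN^[t + cod t (n : ℤ)] n = TN^[t] n := by
  induction t with
  | zero => intro n; rfl
  | succ t ih =>
    intro n
    have h1 : fT (n : ℤ) = ((TN n : ℕ) : ℤ) := by
      have := TN_iter 1 n
      simpa using this.symm
    rw [cod, h1, Function.iterate_succ_apply TN, ← ih (TN n)]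
    by_cases h : n % 2 = 0
    · rw [if_pos (by omega), show t + 1 + (0 + cod t ((TN n : ℕ) : ℤ)) =
        (t + cod t ((TN n : ℕ) : ℤ)) + 1 by ring, Function.iterate_succ_apply]
      congr 1
      simp [CN, TN, h]
    · rw [if_neg (by omega), show t + 1 + (1 + cod t ((TN n : ℕ) : ℤ)) =
        (t + cod t ((TN n : ℕ) : ℤ)) + 1 + 1 by ring, Function.iterate_succ_apply,
        Function.iterate_succ_apply]
      congr 1
      have h2 : CN n = 3 * n + 1 := by simp only [CN, if_neg h]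
      have h3 : TN n = (3 * n + 1) / 2 := by simp only [TN, if_neg h]
      rw [h2, h3]
      simp only [CN]
      rw [if_pos (by omega)]

theorem log_le_large (C : ℝ) : ∃ z₀ : ℝ, 1 ≤ z₀ ∧ ∀ z : ℝ, z₀ ≤ z → C * Real.log z ≤ z := by
  have h := Real.isLittleO_log_id_atTop.bound (show (0 : ℝ) < 1 / (|C| + 1) by positivity)
  rw [Filter.eventually_atTop] at h
  obtain ⟨z₀, h⟩ := h
  refine ⟨max z₀ 1, le_max_right _ _, fun z hz => ?_⟩
  have h1 := h z ((le_max_left _ _).trans hz)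
  have hz1 : 1 ≤ z := (le_max_right _ _).trans hz
  simp only [id, Real.norm_eq_abs, abs_of_nonneg (Real.log_nonneg hz1),
    abs_of_nonneg (show (0 : ℝ) ≤ z by linarith)] at h1
  have h2 := Real.log_nonneg hz1
  calc C * Real.log z ≤ (|C| + 1) * Real.log z :=
        mul_le_mul_of_nonneg_right (by linarith [le_abs_self C]) h2
    _ ≤ (|C| + 1) * (1 / (|C| + 1) * z) := mul_le_mul_of_nonneg_left h1 (by positivity)
    _ = z := by field_simp

open Pool.Agent.H320R2.PD in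
/-- the Collatz total stopping time of a positive proportion of the integers -/
theorem sharp_C (ε : ℝ) (hε : 0 < ε) : ∃ c : ℝ, 0 < c ∧ ∀ᶠ x : ℝ in atTop,
    c * x ≤ (Set.ncard {n : ℕ | 1 ≤ n ∧ (n : ℝ) ≤ x ∧ ∃ k : ℕ, CN^[k] n = 1 ∧
      (k : ℝ) ≤ (3 / Real.log (4 / 3) + ε) * Real.log n ∧ k ≤ n} : ℝ) := by
  obtain ⟨c, hc, X0, h⟩ := sharp (ε / 2) (by positivity)
  set D := 3 / Real.log (4 / 3) + ε with hD
  obtain ⟨z₀, hz₀, hz⟩ := log_le_large D
  refine ⟨c, hc, ?_⟩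
  filter_upwards [eventually_ge_atTop X0, eventually_ge_atTop (z₀ / c)] with X hX hX2
  obtain ⟨S, hS, hcard⟩ := h X hX
  refine card_transfer _ c X S (fun n hn => ?_) hcard
  obtain ⟨h1, h2, h3, t, h4, h5, h6, _⟩ := hS n hn
  have hzn : z₀ ≤ (n : ℝ) := by
    refine le_trans ?_ h2
    rw [div_le_iff₀ hc] at hX2
    linarith
  have hnR : (0 : ℝ) < n := by exact_mod_cast h1
  have hlogn : 0 ≤ Real.log (n : ℝ) := Real.log_natCast_nonneg n
  have hk : ((t + cod t (n : ℤ) : ℕ) : ℝ) ≤ D * Real.log n := by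
    have g1 := pow_cod t (n : ℤ) (by exact_mod_cast h1)
    have g2 : fT^[t] (n : ℤ) = 1 := by
      rw [← TN_iter, h4]; rfl
    rw [g2, mul_one] at g1
    have g3 : (3 : ℝ) ^ cod t (n : ℤ) * n ≤ 2 ^ t := by exact_mod_cast g1
    have g4 := Real.log_le_log (by positivity) g3
    rw [Real.log_mul (by positivity) hnR.ne', Real.log_pow, Real.log_pow] at g4
    have g5 := (abs_le.1 h6).2
    have hl3 : 0 < Real.log 3 := Real.log_pos (by norm_num)
    have hl2 : 0 < Real.log 2 := Real.log_pos (by norm_num)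
    have hl23 : Real.log 2 ≤ Real.log 3 := Real.log_le_log (by norm_num) (by norm_num)
    have hμ : Real.log (4 / 3) = 2 * Real.log 2 - Real.log 3 := by
      rw [Real.log_div (by norm_num) (by norm_num)]
      have : Real.log 4 = 2 * Real.log 2 := by
        rw [show (4 : ℝ) = 2 ^ 2 by norm_num, Real.log_pow]; push_cast; ring
      rw [this]
    have hμ0 : 0 < Real.log (4 / 3) := Real.log_pos (by norm_num)
    set μ := Real.log (4 / 3) with hμd
    -- `k log 3 ≤ t (log 3 + log 2) - log n`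
    have g6 : ((t + cod t (n : ℤ) : ℕ) : ℝ) * Real.log 3 ≤
        t * (Real.log 3 + Real.log 2) - Real.log n := by
      push_cast
      linarith
    have g7 : (t : ℝ) ≤ (2 / μ + ε / 2) * Real.log n := by linarith
    have g8 : (t : ℝ) * (Real.log 3 + Real.log 2) ≤
        (2 / μ + ε / 2) * Real.log n * (Real.log 3 + Real.log 2) :=
      mul_le_mul_of_nonneg_right g7 (by positivity)
    have g9 : (2 / μ + ε / 2) * Real.log n * (Real.log 3 + Real.log 2) - Real.log n =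
        (3 / μ) * Real.log n * Real.log 3 +
          ε / 2 * Real.log n * (Real.log 3 + Real.log 2) := by
      have e1 : 2 * (Real.log 3 + Real.log 2) = 3 * Real.log 3 + μ := by rw [hμ]; ring
      field_simp
      linear_combination Real.log n * e1 * 2
    have g10 : ε / 2 * Real.log n * (Real.log 3 + Real.log 2) ≤ ε * Real.log n * Real.log 3 := by
      have : 0 ≤ ε / 2 * Real.log n := by positivity
      nlinarith
    have g11 : ((t + cod t (n : ℤ) : ℕ) : ℝ) * Real.log 3 ≤ D * Real.log n * Real.log 3 := by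
      rw [hD]; linarith
    exact le_of_mul_le_mul_right g11 hl3
  refine ⟨h1, h3, t + cod t (n : ℤ), ?_, hk, ?_⟩
  · rw [CN_iter, h4]
  · have := hk.trans (hz n hzn)
    exact_mod_cast this

/-! ### the tag system -/

theorem fT_eq : Pool.Agent.H412R2.fT = Pool.Agent.H320R2.PD.fT := rfl

theorem sharp_tag : ∀ step : List (Fin 3) → List (Fin 3),
    (∀ w : List (Fin 3), step w = w.drop 2 ++
        (if w.headD 0 = 0 then ([1, 2] : List (Fin 3))
         else if w.headD 0 = 1 then ([0] : List (Fin 3))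
         else ([0, 0, 0] : List (Fin 3)))) →
    ∃ c : ℝ, 0 < c ∧ ∀ᶠ x : ℝ in atTop,
    c * x ≤ (Set.ncard {n : ℕ | 1 ≤ n ∧ (n : ℝ) ≤ x ∧ ∃ k : ℕ,
        (k : ℝ) ≤ n * Real.log n ^ 8 ∧
        step^[k] (List.replicate n (0 : Fin 3)) = [0] ∧
        ∀ j < k, 2 ≤ (step^[j] (List.replicate n (0 : Fin 3))).length} : ℝ) := by
  intro step hstep
  obtain ⟨c, hc, X0, h⟩ := sharp 1 one_pos
  refine ⟨c, hc, ?_⟩
  filter_upwards [eventually_ge_atTop X0, eventually_ge_atTop (Real.exp 10 / c)] with X hX hX2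
  obtain ⟨S, hS, hcard⟩ := h X hX
  refine card_transfer _ c X S (fun n hn => ?_) hcard
  obtain ⟨h1, h2, h3, t, h4, h5, h6, h7⟩ := hS n hn
  have hnR : (0 : ℝ) < n := by exact_mod_cast h1
  have hzn : Real.exp 10 ≤ (n : ℝ) := by
    refine le_trans ?_ h2
    rw [div_le_iff₀ hc] at hX2
    linarith
  have hlogn : 10 ≤ Real.log (n : ℝ) := (Real.le_log_iff_exp_le hnR).2 hzn
  obtain ⟨k, hk, hr⟩ := tag_run hstep t n h1 (by
    rw [fT_eq, ← TN_iter, h4]; rfl)
  refine ⟨h1, h3, k, ?_, hr.1, hr.2⟩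
  set l := Real.log (n : ℝ) with hl
  have hl0 : 0 < l := by linarith
  have hkR : (k : ℝ) ≤ ∑ i ∈ range t, ((n : ℝ) * l ^ 6 + 1) := by
    have h8 : (k : ℝ) ≤ ((∑ i ∈ range t, (Pool.Agent.H412R2.fT^[i] (n : ℤ) + 1) : ℤ) : ℝ) := by
      exact_mod_cast hk
    refine h8.trans ?_
    push_cast
    refine Finset.sum_le_sum fun i _ => ?_
    have h9 := h7 i
    have h10 : ((Pool.Agent.H412R2.fT^[i] (n : ℤ) : ℤ) : ℝ) = ((TN^[i] n : ℕ) : ℝ) := by
      have := TN_iter i n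
      rw [fT_eq]
      exact_mod_cast this.symm
    rw [h10]
    linarith
  rw [Finset.sum_const, Finset.card_range, nsmul_eq_mul] at hkR
  have hμ : 0 < Real.log (4 / 3) := Real.log_pos (by norm_num)
  have hγ : 2 / Real.log (4 / 3) ≤ 8 := by
    rw [div_le_iff₀ hμ]
    have h8 : Real.log (4 / 3) = 2 * Real.log 2 - Real.log 3 := by
      rw [Real.log_div (by norm_num) (by norm_num)]
      have : Real.log 4 = 2 * Real.log 2 := by
        rw [show (4 : ℝ) = 2 ^ 2 by norm_num, Real.log_pow]; push_cast; ring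
      rw [this]
    have h9 := log3_le
    have h10 := Real.log_two_gt_d9
    rw [h8]
    linarith
  have ht : (t : ℝ) ≤ 9 * l := by
    have h8 := (abs_le.1 h6).2
    have h9 : 2 / Real.log (4 / 3) * l ≤ 8 * l := mul_le_mul_of_nonneg_right hγ hl0.le
    linarith
  have hn1 : (1 : ℝ) ≤ n := by exact_mod_cast h1
  have hbig : (1 : ℝ) ≤ n * l ^ 6 / 10 := by
    have h8 : (1 : ℝ) ≤ l ^ 5 := one_le_pow₀ (by linarith)
    have h9 : 10 * 1 ≤ l * l ^ 5 := mul_le_mul hlogn h8 (by norm_num) hl0.le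
    have h10 : 1 * (l * l ^ 5) ≤ n * (l * l ^ 5) := mul_le_mul_of_nonneg_right hn1 (by positivity)
    have e : (n : ℝ) * l ^ 6 = n * (l * l ^ 5) := by ring
    rw [e]
    linarith
  calc (k : ℝ) ≤ t * (n * l ^ 6 + 1) := hkR
    _ ≤ (9 * l) * (n * l ^ 6 + n * l ^ 6 / 10) := by
        apply mul_le_mul ht (by linarith) (by positivity) (by positivity)
    _ = (99 / 10) * (n * l ^ 7) := by ring
    _ ≤ l * (n * l ^ 7) := mul_le_mul_of_nonneg_right (by linarith) (by positivity)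
    _ = n * l ^ 8 := by ring

end Pool.Agent.H363R2
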