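import Pool.Agent.H33.G.R_seed8.H363R2.KmapC

set_option autoImplicit false

/-! Many integers reach `1` under the `3x+1` map with a small trajectory sum. -/

namespace Pool.Agent.H363R2
open Pool.Agent.H412R2 Finset

theorem tr_reach_s {E n s : ℕ} {x z : ℤ} (hz : z ∈ tr 3 E n s x) : fT^[s] z = x := by
  induction n generalizing s x with
  | zero =>
    rw [mem_tr_zero] at hz
    obtain ⟨rfl, rfl⟩ := hz
    rfl
  | succ n ih =>
    obtain ⟨e, b, he, _, hes, hb, hz'⟩ := (mem_tr_succ (by norm_num)).1 hz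
    have hk' := ih hz'
    obtain ⟨e', rfl⟩ : ∃ e', e = e' + 1 := ⟨e - 1, by omega⟩
    have hs : s = e' + (1 + (s - (e' + 1))) := by omega
    rw [hs, Function.iterate_add_apply, Function.iterate_add_apply, hk', Function.iterate_one]
    have h1 : (2 : ℤ) ^ (e' + 1) * x = 2 * (2 ^ e' * x) := by ring
    push_cast at hb
    rw [h1] at hb
    have h2 : fT b = 2 ^ e' * x := by
      unfold fT
      rw [if_neg (by omega)]
      omega
    rw [h2, fT_halves]

theorem tr_pos {E n s : ℕ} {x z : ℤ} (hx : 1 ≤ x) (hz : z ∈ tr 3 E n s x) : 1 ≤ z := by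
  induction n generalizing s x with
  | zero =>
    rw [mem_tr_zero] at hz
    obtain ⟨_, rfl⟩ := hz
    exact hx
  | succ n ih =>
    obtain ⟨e, b, he, _, hes, hb, hz'⟩ := (mem_tr_succ (by norm_num)).1 hz
    refine ih ?_ hz'
    obtain ⟨e', rfl⟩ : ∃ e', e = e' + 1 := ⟨e - 1, by omega⟩
    have h1 : (2 : ℤ) ^ (e' + 1) * x = 2 * (2 ^ e' * x) := by ring
    have hpos : (1 : ℤ) ≤ 2 ^ e' * x := by
      have h3 : (1 : ℤ) ≤ 2 ^ e' := one_le_pow₀ (by norm_num)
      nlinarith
    push_cast at hb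
    rw [h1] at hb
    omega

theorem fT_iter_bound (i : ℕ) {b : ℤ} (hb : 1 ≤ b) : 1 ≤ fT^[i] b ∧ fT^[i] b ≤ 2 ^ i * b := by
  induction i with
  | zero => simpa using hb
  | succ i ih =>
    obtain ⟨h1, h2⟩ := ih
    rw [Function.iterate_succ_apply']
    have h3 : 1 ≤ fT (fT^[i] b) ∧ fT (fT^[i] b) ≤ 2 * fT^[i] b := by
      unfold fT
      unfold fT at h1
      split_ifs with h
      · constructor <;> omega
      · constructor <;> omega
    refine ⟨h3.1, h3.2.trans ?_⟩
    calc 2 * fT^[i] b ≤ 2 * (2 ^ i * b) := by linarith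
      _ = 2 ^ (i + 1) * b := by ring

theorem sum_block_le (S : ℕ) {b : ℤ} (hb : 1 ≤ b) : ∑ i ∈ range S, fT^[i] b ≤ 2 ^ S * b := by
  induction S with
  | zero => simp; omega
  | succ S ih =>
    rw [Finset.sum_range_succ]
    have := (fT_iter_bound S hb).2
    calc _ ≤ 2 ^ S * b + 2 ^ S * b := by linarith
      _ = 2 ^ (S + 1) * b := by ring

theorem path_traj {η : ℝ} {T j s : ℕ} (hT : 1 ≤ T) {x z : ℤ} (h : Path (SS η T) (KK η T) j s x z)
    (hx : 1 ≤ x) : 1 ≤ z ∧ x ≤ (3 ^ T * (3 ^ T + 1)) * z ∧ fT^[s] z = x ∧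
      ∑ i ∈ range s, fT^[i] z ≤ (2 ^ (6 * T) * (3 ^ T * (3 ^ T + 1))) * j * z := by
  induction h with
  | refl x =>
    refine ⟨hx, ?_, rfl, by simp⟩
    have h1 : (1 : ℤ) ≤ 3 ^ T := one_le_pow₀ (by norm_num)
    have h2 : (1 : ℤ) ≤ 3 ^ T * (3 ^ T + 1) := one_le_mul_of_one_le_of_one_le h1 (by linarith)
    exact le_mul_of_one_le_left (by linarith) h2
  | step hb _ ih =>
    rename_i j s x b z _
    have hbt : b ∈ tr 3 (6 * T) T (SS η T x) x := (Finset.mem_filter.1 hb).1
    have hb1 : 1 ≤ b := tr_pos hx hbt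
    obtain ⟨hz1, hbz, hbs, hsum⟩ := ih hb1
    have hreach := tr_reach_s hbt
    have hoff := tr_off_le (by norm_num) hbt
    push_cast at hoff
    have h23 := two_pow_gt hT (SS_ge η T x)
    have h23' : (3 : ℤ) ^ T + 1 ≤ 2 ^ (SS η T x) := by exact_mod_cast h23
    set G : ℤ := 3 ^ T with hG
    set H : ℤ := 2 ^ (SS η T x) with hH
    have hG1 : 1 ≤ G := one_le_pow₀ (by norm_num)
    refine ⟨hz1, ?_, ?_, ?_⟩
    · by_cases hxs : x ≤ G
      · have e1 : G * 1 ≤ G * ((G + 1) * z) := by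
          apply mul_le_mul_of_nonneg_left _ (by linarith)
          exact one_le_mul_of_one_le_of_one_le (by linarith) hz1
        calc x ≤ G * 1 := by linarith
          _ ≤ G * ((G + 1) * z) := e1
          _ = _ := by ring
      · rw [not_le] at hxs
        have h1 : (x - G) * (G + 1) ≤ G * b := by
          calc (x - G) * (G + 1) ≤ (x - G) * H := mul_le_mul_of_nonneg_left h23' (by linarith)
            _ ≤ G * b := by linarith
        have h2 : G * b ≤ G * (G * (G + 1) * z) := mul_le_mul_of_nonneg_left hbz (by linarith)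
        have h3 : (x - G) * (G + 1) ≤ (G * G * z) * (G + 1) := by
          calc _ ≤ G * (G * (G + 1) * z) := h1.trans h2
            _ = _ := by ring
        have h4 : x - G ≤ G * G * z := le_of_mul_le_mul_right h3 (by linarith)
        have h5 : G * 1 ≤ G * z := mul_le_mul_of_nonneg_left hz1 (by linarith)
        calc x ≤ G * G * z + G * 1 := by linarith
          _ ≤ G * G * z + G * z := by linarith
          _ = _ := by ring
    · rw [add_comm s, Function.iterate_add_apply, hbs, hreach]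
    · rw [Finset.sum_range_add]
      have e1 : ∑ i ∈ range (SS η T x), fT^[s + i] z = ∑ i ∈ range (SS η T x), fT^[i] b := by
        refine Finset.sum_congr rfl fun i _ => ?_
        rw [add_comm, Function.iterate_add_apply, hbs]
      rw [e1]
      have h5 := sum_block_le (SS η T x) hb1
      have h6 : (2 : ℤ) ^ (SS η T x) ≤ 2 ^ (6 * T) := pow_le_pow_right₀ (by norm_num) (SS_le η T x)
      have h7 : (2 : ℤ) ^ (SS η T x) * b ≤ 2 ^ (6 * T) * (G * (G + 1) * z) :=
        mul_le_mul h6 hbz (by linarith) (by positivity)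
      push_cast
      calc _ ≤ (2 ^ (6 * T) * (G * (G + 1))) * j * z + 2 ^ (6 * T) * (G * (G + 1) * z) := by
            linarith
        _ = _ := by ring

/-- counting with logarithmic number of steps and small trajectory sum -/
theorem main_count_traj (σ : ℝ) (hσ : 0 < σ) (hσ1 : σ < 1) :
    ∃ c C B₀ : ℝ, 0 < c ∧ 0 < C ∧ 1 ≤ B₀ ∧ ∀ B : ℝ, B₀ ≤ B → ∃ F : Finset ℤ,
      (∀ z ∈ F, 1 ≤ z ∧ (z : ℝ) ≤ B ∧ ∃ s : ℕ, (s : ℝ) ≤ C * (1 + Real.log B) ∧
        fT^[s] z = 1 ∧ ((∑ i ∈ range s, fT^[i] z : ℤ) : ℝ) ≤ C * (1 + Real.log B) * z) ∧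
      c * B ^ σ ≤ F.card := by
  set σ' : ℝ := (1 + σ) / 2 with hσ'
  have hs1 : σ' < 1 := by rw [hσ']; linarith
  have hs2 : σ < σ' := by rw [hσ']; linarith
  have hc := c2_gt
  set η : ℝ := (1 - σ') * c2 / 4 with hη
  have hη4 : η ≤ c2 / 4 := by
    rw [hη]
    have : 0 ≤ σ' * c2 := by
      apply mul_nonneg <;> linarith
    linarith
  obtain ⟨T, hT, hpos⟩ := ker_hpos typicalStmt σ' η hs1 hη
  obtain ⟨c, C, B₀, hc0, hC0, hB₀, hcount⟩ := countS_of_positive (ker η T hη4 hT) Nat.prime_three σ'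
    (by linarith)
    (by
      intro x _
      have h := two_pow_gt (by omega) (SS_ge η T x)
      change ((3 : ℕ) : ℝ) ^ T < 2 ^ (SS η T x)
      exact_mod_cast h)
    (by
      intro x b _ hb
      change |((3 : ℕ) : ℤ) ^ T * b - 2 ^ (SS η T x) * x| ≤ 2 ^ (6 * T) * ((3 : ℕ) : ℤ) ^ T
      have hb' : b ∈ tr 3 (6 * T) T (SS η T x) x := (Finset.mem_filter.1 hb).1
      have a1 := tr_off_nonneg (by norm_num) hb'
      have a2 := tr_off_le (by norm_num) hb'
      have h2 : (2 : ℤ) ^ (SS η T x) * ((3 : ℕ) : ℤ) ^ T ≤ 2 ^ (6 * T) * ((3 : ℕ) : ℤ) ^ T := by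
        apply mul_le_mul_of_nonneg_right _ (by positivity)
        exact pow_le_pow_right₀ (by norm_num) (SS_le η T x)
      rw [abs_le]
      constructor <;> linarith)
    (by
      intro r hr
      exact hpos r hr)
    (positiveStmt (ker η T hη4 hT) Nat.prime_three (by norm_num) (by omega)) 1 (by norm_num)
  set M : ℝ := 2 ^ (6 * T) * (3 ^ T * (3 ^ T + 1)) with hM
  have hM1 : 1 ≤ M := by
    have h1 : (1 : ℝ) ≤ 2 ^ (6 * T) := one_le_pow₀ (by norm_num)
    have h2 : (1 : ℝ) ≤ 3 ^ T := one_le_pow₀ (by norm_num)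
    rw [hM]
    exact one_le_mul_of_one_le_of_one_le h1 (one_le_mul_of_one_le_of_one_le h2 (by linarith))
  refine ⟨c / (1 + 1 / ((σ' - σ) / 2)) ^ 2, (6 * T + M) * C, B₀, ?_, ?_, hB₀, ?_⟩
  · have : 0 < (σ' - σ) / 2 := by linarith
    positivity
  · positivity
  · intro B hB
    have hB1 : 1 ≤ B := hB₀.trans hB
    have hlB : 0 ≤ Real.log B := Real.log_nonneg hB1
    obtain ⟨F, hF1, hF2⟩ := hcount B hB
    refine ⟨F, ?_, absorb hB1 hs2 (by positivity) hF2⟩
    intro z hz
    obtain ⟨h1, j, s, hj, h2⟩ := hF1 z hz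
    obtain ⟨g1, g2, g3, g4⟩ := path_traj (by omega) h2 le_rfl
    have hz1 : (1 : ℝ) ≤ (z : ℝ) := by exact_mod_cast g1
    refine ⟨g1, (le_abs_self _).trans h1, s, ?_, g3, ?_⟩
    · have h3 : s ≤ 6 * T * j := path_size h2
      have h4 : (s : ℝ) ≤ 6 * T * j := by exact_mod_cast h3
      have h5 : 0 ≤ C * (1 + Real.log B) := by positivity
      calc (s : ℝ) ≤ 6 * T * j := h4
        _ ≤ 6 * T * (C * (1 + Real.log B)) := mul_le_mul_of_nonneg_left hj (by positivity)
        _ ≤ (6 * T + M) * C * (1 + Real.log B) := by nlinarith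
    · have g4' : ((∑ i ∈ range s, fT^[i] z : ℤ) : ℝ) ≤ M * j * z := by
        rw [hM]; exact_mod_cast g4
      calc _ ≤ M * j * z := g4'
        _ ≤ M * (C * (1 + Real.log B)) * z := by
          apply mul_le_mul_of_nonneg_right _ (by linarith)
          exact mul_le_mul_of_nonneg_left hj (by linarith)
        _ ≤ (6 * T + M) * C * (1 + Real.log B) * z := by
          apply mul_le_mul_of_nonneg_right _ (by linarith)
          have h5 : 0 ≤ C * (1 + Real.log B) := by positivity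
          have h6 : (0 : ℝ) ≤ 6 * T := by positivity
          nlinarith

end Pool.Agent.H363R2
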